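import Pool.Agent.Lib.helper22.CXEtrS

namespace Pool.Agent.H.MP_50cd9e_lc

open Pool.Agent.Lib.CX Pool.Agent.Lib.ER Finset

theorem val_diff {n} {Q : Bf} (h : ∀ t ∈ Q, t.2.1 < n ∧ t.2.2 < n) {x y : ℕ → ℝ} {η : ℝ} (hx : ∀ i < n, |x i| ≤ 2)
    (hy : ∀ i < n, |x i - y i| ≤ η) : |Q.val x x - Q.val x y| ≤ 2 * Q.l1 * η := by
  induction Q with
  | nil => simp [Bf.val, Bf.l1]
  | cons t Q ih =>
    simp only [List.forall_mem_cons] at h
    have a := ih h.2
    have b : |(t.1 : ℝ) * (x t.2.1 * (x t.2.2 - y t.2.2))| ≤ |(t.1 : ℝ)| * (2 * η) := by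
      rw [abs_mul, abs_mul]
      have := hx _ h.1.1
      have := hy _ h.1.2
      gcongr
    simp only [Bf.val, Bf.l1, List.map_cons, List.sum_cons, Nat.cast_add, Nat.cast_natAbs, Int.cast_abs] at a ⊢
    refine le_trans (le_of_eq ?_) ((abs_add_le _ _).trans ((add_le_add b a).trans_eq (by ring)))
    congr 1; ring

theorem tower {L : ℕ} {a b : ℕ → ℝ} {η : ℝ} (h0 : 0 ≤ η) (h1 : η ≤ 1 / 16) (h3 : |4 * a 0 - 1| ≤ η)
    (h4 : ∀ k < L, |a (k + 1) - a k * b k| ≤ η) (h6 : ∀ k ≤ L, |a k - b k| ≤ η) :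
    ∀ k ≤ L, |a k| ≤ (2 ^ 2 ^ k)⁻¹ / 2 + 2 * η := fun k hk => by
  induction k with
  | zero => rw [abs_le] at h3 ⊢; norm_num; constructor <;> linarith [h3.1, h3.2]
  | succ k ih =>
    have a1 := ih (by omega)
    have a2 : |b k| ≤ |a k| + η := by
      have := abs_sub_abs_le_abs_sub (b k) (a k)
      rw [abs_sub_comm] at this
      linarith [h6 k (by omega)]
    have a3 : |a (k + 1)| ≤ |a k| * |b k| + η := by
      have := abs_sub_abs_le_abs_sub (a (k + 1)) (a k * b k)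
      rw [abs_mul] at this
      linarith [h4 k (by omega)]
    have a4 : |a k| * |b k| ≤ ((2 ^ 2 ^ k)⁻¹ / 2 + 2 * η) * ((2 ^ 2 ^ k)⁻¹ / 2 + 3 * η) :=
      mul_le_mul a1 (by linarith) (abs_nonneg _) (by positivity)
    rw [pow_succ 2 k, pow_mul, ← inv_pow]
    generalize ((2 : ℝ) ^ 2 ^ k)⁻¹ = g at *
    nlinarith [sq_nonneg (g - 5 * η)]

theorem analytic {n L : ℕ} {F : List Bf} (hF : ∀ Q ∈ F, ∀ t ∈ Q, t.2.1 < n ∧ t.2.2 < n) {x y : ℕ → ℝ} {lam η : ℝ}
    (hl : lam = 64 * (n + 1) * (((F.map fun Q => (1 + 2 * Q.l1) * (1 + 2 * Q.l1)).sum : ℕ) + 1))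
    (hη : η * lam = 2 * |x (n + 2 + L)|) (h1 : ∀ Q ∈ F, |Q.val x y| ≤ η) (h2 : |∑ i ∈ range n, x i * y i - 1| ≤ η)
    (h3 : |4 * x (n + 2) - 1| ≤ η) (h4 : ∀ k < L, |x (n + 2 + (k + 1)) - x (n + 2 + k) * y (n + 2 + k)| ≤ η)
    (h5 : |x (n + 2 + L) * y (n + 2 + L) + x (n + 1) * y (n + 1) - 1| ≤ η) (h6 : ∀ i < n + 3 + L, |x i - y i| ≤ η)
    (hs : (∑ i ∈ range n, x i ^ 2) ^ 2 ≤ 2 * n * (2 ^ 2 ^ L) ^ 2 * pf F x) : False := by
  have h0 : 0 ≤ η := (abs_nonneg _).trans h2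
  have key : (∀ i < n, |x i| ≤ 2) → pf F x ≤ η ^ 2 * ((F.map fun Q => (1 + 2 * Q.l1) * (1 + 2 * Q.l1)).sum : ℕ) := fun hx => by
    rw [pf, Nat.cast_list_sum, List.map_map, ← List.sum_map_mul_left]
    refine List.sum_le_sum fun Q hQ => ?_
    have a := val_diff (hF Q hQ) hx fun i hi => h6 i (by omega)
    have b := h1 Q hQ
    have c := abs_sub_abs_le_abs_sub (Q.val x x) (Q.val x y)
    have : |Q.val x x| ≤ η * (1 + 2 * Q.l1) := by linarith
    rw [← sq_abs]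
    refine (pow_le_pow_left₀ (abs_nonneg _) this 2).trans_eq ?_
    simp only [Function.comp]
    push_cast
    ring
  have W0 : (0 : ℝ) ≤ ((F.map fun Q => (1 + 2 * Q.l1) * (1 + 2 * Q.l1)).sum : ℕ) := Nat.cast_nonneg _
  generalize (((F.map fun Q => (1 + 2 * Q.l1) * (1 + 2 * Q.l1)).sum : ℕ) : ℝ) = W at *
  have n0 : (0 : ℝ) ≤ n := Nat.cast_nonneg _
  have l1 : 64 * ((n : ℝ) + 1) ≤ lam := by nlinarith
  have pr : ∀ i < n + 3 + L, x i ^ 2 - |x i| * η ≤ x i * y i ∧ x i * y i ≤ x i ^ 2 + |x i| * η := fun i hi => by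
    have : |x i * (x i - y i)| ≤ |x i| * η := by rw [abs_mul]; gcongr; exact h6 i hi
    rw [abs_le] at this
    constructor <;> nlinarith [this.1, this.2]
  have a2 : |x (n + 2 + L)| ≤ 2 := by
    have b1 := (pr (n + 2 + L) (by omega)).1
    have b2 := (pr (n + 1) (by omega)).1
    have b3 := (abs_le.1 h5).2
    rw [← sq_abs] at b1 b2
    have b4 : 32 * η ≤ |x (n + 2 + L)| := by nlinarith
    have := abs_nonneg (x (n + 2 + L))
    generalize |x (n + 2 + L)| = a at *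
    generalize |x (n + 1)| = c at *
    nlinarith [sq_nonneg (2 * c - η)]
  have e1 : 16 * ((n : ℝ) + 1) * η ≤ 1 := by nlinarith
  have t := tower (L := L) (a := fun k => x (n + 2 + k)) (b := fun k => y (n + 2 + k)) h0 (by nlinarith) h3 h4
    (fun k hk => h6 _ (by omega)) L le_rfl
  have B0 : (0 : ℝ) < 2 ^ 2 ^ L := by positivity
  generalize (2 : ℝ) ^ 2 ^ L = B at *
  have e2 : η * B * lam ≤ 2 := by
    have : η * lam ≤ 2 * B⁻¹ := by nlinarith
    calc η * B * lam = η * lam * B := by ring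
      _ ≤ 2 * B⁻¹ * B := by gcongr
      _ = 2 := by field_simp
  have s1 : ∑ i ∈ range n, |x i| * η ≤ (n + ∑ i ∈ range n, x i ^ 2) * η := by
    rw [← sum_mul]
    gcongr
    calc _ ≤ ∑ i ∈ range n, (1 + x i ^ 2) := sum_le_sum fun i _ => by nlinarith [sq_nonneg (|x i| - 1), sq_abs (x i)]
      _ = _ := by simp [sum_add_distrib]
  have s2 := sum_le_sum fun i (hi : i ∈ range n) => (pr i (by have := mem_range.1 hi; omega)).1
  have s3 := sum_le_sum fun i (hi : i ∈ range n) => (pr i (by have := mem_range.1 hi; omega)).2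
  rw [sum_sub_distrib] at s2
  rw [sum_add_distrib] at s3
  have s4 : ∀ i < n, x i ^ 2 ≤ ∑ i ∈ range n, x i ^ 2 := fun i hi =>
    single_le_sum (f := fun i => x i ^ 2) (fun _ _ => sq_nonneg _) (mem_range.2 hi)
  have s0 : 0 ≤ ∑ i ∈ range n, x i ^ 2 := sum_nonneg fun _ _ => sq_nonneg _
  rw [abs_le] at h2
  generalize ∑ i ∈ range n, x i ^ 2 = S at *
  have e3 : S * η ≤ S / 16 := by nlinarith
  have u1 : S ≤ 2 := by nlinarith [h2.2]
  have u2 : 1 / 2 ≤ S := by nlinarith [h2.1]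
  have k := key fun i hi => abs_le_of_sq_le_sq' (by linarith [s4 i hi]) (by norm_num) |> abs_le.2
  have k2 : 1 / 4 ≤ 2 * n * (η * B) ^ 2 * W := by
    calc 1 / 4 ≤ S ^ 2 := by nlinarith
      _ ≤ 2 * n * B ^ 2 * (η ^ 2 * W) := hs.trans (by gcongr)
      _ = _ := by ring
  have k3 : (η * B * lam) ^ 2 ≤ 2 ^ 2 := pow_le_pow_left₀ (mul_nonneg (by positivity) (by linarith)) e2 2
  have k4 : 64 * n * W ≤ lam := by nlinarith
  have k5 : 64 * (64 * n * W) ≤ lam ^ 2 := by nlinarith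
  have k6 : 0 ≤ (η * B) ^ 2 := sq_nonneg _
  rw [mul_pow] at k3
  nlinarith

theorem lin {ι : Type} [Fintype ι] (b : ι → ℕ → ℝ) (e : ℕ → ℝ) (D : ℕ) (v z : ℕ → ℝ) {C : ℝ}
    (hC : C = 1 + ∑ r, ∑ l ∈ range D, b r l * b r l + ∑ l ∈ range D, e l * e l) (hv : ∑ l ∈ range D, v l ^ 2 ≤ 1)
    (hz : ∑ l ∈ range D, z l ^ 2 = 1) (h : C < |∑ k ∈ range D, (C * v k - ∑ r, b r k * ∑ l ∈ range D, b r l * v l +
      e k * ∑ l ∈ range D, e l * v l) * z k|) :
    ∑ r, (∑ l ∈ range D, b r l * v l) ^ 2 < 4 * (∑ l ∈ range D, e l * v l) ^ 2 := by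
  set s : ι → ℝ := fun r => ∑ l ∈ range D, b r l * v l with hs
  set E := ∑ l ∈ range D, e l * v l with hE
  have C1 : 1 ≤ C := by
    have : 0 ≤ ∑ r, ∑ l ∈ range D, b r l * b r l := sum_nonneg fun _ _ => sum_nonneg fun _ _ => mul_self_nonneg _
    have : 0 ≤ ∑ l ∈ range D, e l * e l := sum_nonneg fun _ _ => mul_self_nonneg _
    linarith
  have a1 := (pow_lt_pow_left₀ h (by linarith) two_ne_zero).trans_le
    ((sq_abs _).trans_le (sum_mul_sq_le_sq_mul_sq _ _ _))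
  rw [hz, mul_one] at a1
  have e1 : ∑ k ∈ range D, (∑ r, b r k * s r) * v k = ∑ r, s r ^ 2 := by
    simp only [sum_mul]
    rw [sum_comm]
    refine sum_congr rfl fun r _ => ?_
    rw [sq]
    nth_rewrite 2 [hs]
    rw [sum_mul]
    exact sum_congr rfl fun k _ => by ring
  have e2 : ∑ k ∈ range D, (∑ r, b r k * s r - e k * E) ^ 2 ≤ (C - 1) * (∑ r, s r ^ 2 + E ^ 2) := by
    rw [hC, add_assoc, add_sub_cancel_left, sum_comm, ← sum_add_distrib, sum_mul]
    refine sum_le_sum fun k _ => ?_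
    have := sum_mul_sq_le_sq_mul_sq univ (fun r : Option ι => r.elim (e k) fun r => b r k) fun r => r.elim (-E) s
    simp only [Fintype.sum_option, Option.elim_none, Option.elim_some] at this
    simp only [sq] at this ⊢
    linarith
  have e3 : ∑ k ∈ range D, (C * v k - ∑ r, b r k * s r + e k * E) ^ 2 = C ^ 2 * ∑ l ∈ range D, v l ^ 2 -
      2 * C * ∑ k ∈ range D, (∑ r, b r k * s r) * v k + 2 * C * E * ∑ l ∈ range D, e l * v l +
      ∑ k ∈ range D, (∑ r, b r k * s r - e k * E) ^ 2 := by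
    rw [mul_sum, mul_sum, mul_sum, ← sum_sub_distrib, ← sum_add_distrib, ← sum_add_distrib]
    exact sum_congr rfl fun k _ => by ring
  rw [e3, e1, ← hE] at a1
  have S0 : 0 ≤ ∑ r, s r ^ 2 := sum_nonneg fun _ _ => sq_nonneg _
  have p : 0 ≤ C ^ 2 * (1 - ∑ l ∈ range D, v l ^ 2) := mul_nonneg (sq_nonneg _) (by linarith)
  show ∑ r, s r ^ 2 < _
  generalize ∑ r, s r ^ 2 = S at *
  by_contra c
  push Not at c
  nlinarith [sq_nonneg E, mul_le_mul_of_nonneg_left c (show 0 ≤ C by linarith)]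

theorem flat (n m : ℕ) (g : ℕ → ℕ → ℝ) :
    ∑ l ∈ range (m * n), g (l / n) (l % n) = ∑ i ∈ range m, ∑ j ∈ range n, g i j := by
  induction m with
  | zero => simp
  | succ m ih =>
    rw [Nat.succ_mul, sum_range_add, ih, sum_range_succ]
    congr 1
    refine sum_congr rfl fun j hj => ?_
    have := mem_range.1 hj
    rw [mul_comm, Nat.mul_add_div (by omega), Nat.mul_add_mod, Nat.div_eq_of_lt this, Nat.mod_eq_of_lt this, add_zero]

def co (Q : Bf) (i j : ℕ) : ℤ := (Q.map fun t => if t.2.1 = i ∧ t.2.2 = j then t.1 else 0).sum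

theorem val_co {n : ℕ} (Q : Bf) (h : ∀ t ∈ Q, t.2.1 < n ∧ t.2.2 < n) (u v : ℕ → ℝ) :
    ∑ l ∈ range (n * n), (co Q (l / n) (l % n) : ℝ) * (u (l / n) * v (l % n)) = Bf.val Q u v := by
  rw [flat n n fun i j => (co Q i j : ℝ) * (u i * v j)]
  induction Q with
  | nil => simp [co, Bf.val]
  | cons t Q ih =>
    simp only [List.forall_mem_cons] at h
    simp only [co, Bf.val, List.map_cons, List.sum_cons, Int.cast_add, add_mul, sum_add_distrib] at ih ⊢
    rw [ih h.2, sum_eq_single t.2.1, sum_eq_single t.2.2] <;> simp +contextual [h.1, eq_comm]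

/-- the tensor exceeds `C` iff the forms `G` can be made small compared with the form `e` -/
theorem core {n : ℕ} (G : List Bf) (e : Bf) (C : ℝ) (T : ℕ → ℕ → ℕ → ℝ)
    (hG : ∀ Q ∈ G, ∀ t ∈ Q, t.2.1 < n ∧ t.2.2 < n) (he : ∀ t ∈ e, t.2.1 < n ∧ t.2.2 < n)
    (hC : C = 1 + ∑ r : Fin G.length, ∑ l ∈ range (n * n), (co G[r.1] (l / n) (l % n) : ℝ) * co G[r.1] (l / n) (l % n) +
      ∑ l ∈ range (n * n), (co e (l / n) (l % n) : ℝ) * co e (l / n) (l % n))
    (ht : ∀ i j k, T i j k = if i < n ∧ j < n then (if i * n + j = k then C else 0) -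
      ∑ r : Fin G.length, (co G[r.1] i j : ℝ) * co G[r.1] (k / n) (k % n) + co e i j * co e (k / n) (k % n) else 0) :
    ((∃ u : ℕ → ℝ, e.val u u ≠ 0 ∧ ∀ Q ∈ G, Bf.val Q u u = 0) → ∃ x y z : ℕ → ℝ, ∑ i ∈ range (n * n), x i ^ 2 = 1 ∧
    ∑ i ∈ range (n * n), y i ^ 2 = 1 ∧ ∑ i ∈ range (n * n), z i ^ 2 = 1 ∧
    C < |∑ i ∈ range (n * n), ∑ j ∈ range (n * n), ∑ k ∈ range (n * n), T i j k * x i * y j * z k|) ∧
    ((∃ x y z : ℕ → ℝ, ∑ i ∈ range (n * n), x i ^ 2 = 1 ∧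
    ∑ i ∈ range (n * n), y i ^ 2 = 1 ∧ ∑ i ∈ range (n * n), z i ^ 2 = 1 ∧
    C < |∑ i ∈ range (n * n), ∑ j ∈ range (n * n), ∑ k ∈ range (n * n), T i j k * x i * y j * z k|) →
    ∃ x y : ℕ → ℝ, ∀ Q ∈ G, Bf.val Q x y ^ 2 < 4 * e.val x y ^ 2) := by
  have nn : range n ⊆ range (n * n) := range_subset_range.2 (Nat.le_mul_self n)
  have cut : ∀ (f : ℕ → ℝ), ∑ i ∈ range (n * n), (if i < n then f i else 0) = ∑ i ∈ range n, f i := fun f => by
    rw [← sum_subset nn fun i _ hi => if_neg (by simpa using hi)]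
    exact sum_congr rfl fun i hi => if_pos (mem_range.1 hi)
  have third : ∀ (x y z : ℕ → ℝ), ∑ i ∈ range (n * n), ∑ j ∈ range (n * n), ∑ k ∈ range (n * n),
      T i j k * x i * y j * z k = ∑ k ∈ range (n * n), (C * (x (k / n) * y (k % n)) - ∑ r : Fin G.length,
          (co G[r.1] (k / n) (k % n) : ℝ) * ∑ l ∈ range (n * n), co G[r.1] (l / n) (l % n) * (x (l / n) * y (l % n)) +
          co e (k / n) (k % n) * ∑ l ∈ range (n * n), co e (l / n) (l % n) * (x (l / n) * y (l % n))) * z k :=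
      fun x y z => by
    rw [sum_congr rfl fun i _ => sum_comm, sum_comm]
    refine sum_congr rfl fun k hk => ?_
    simp only [← sum_mul]
    congr 1
    simp only [sum_mul, ht, ite_and, ite_mul, zero_mul, sum_ite_irrel, sum_const_zero, cut]
    rw [← flat n n fun i j => ((if i * n + j = k then C else 0) - ∑ r : Fin G.length, (co G[r.1] i j : ℝ) *
        co G[r.1] (k / n) (k % n) + co e i j * co e (k / n) (k % n)) * x i * y j]
    simp only [Nat.div_add_mod', sub_mul, add_mul, sum_add_distrib, sum_sub_distrib, ite_mul, zero_mul, sum_ite_eq', hk,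
      if_true, sum_mul, mul_sum, mul_assoc]
    rw [sum_comm]
    congr 1
    · congr 1
      exact sum_congr rfl fun r _ => sum_congr rfl fun l _ => by ring
    · exact sum_congr rfl fun l _ => by ring
  have sq2 : ∀ x y : ℕ → ℝ, ∑ l ∈ range (n * n), (x (l / n) * y (l % n)) ^ 2 =
      (∑ i ∈ range n, x i ^ 2) * ∑ i ∈ range n, y i ^ 2 := fun x y => by
    simp only [mul_pow]
    rw [flat n n fun i j => x i ^ 2 * y j ^ 2, ← sum_mul_sum]
  constructor
  · rintro ⟨u', hu, h⟩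
    have p : 0 < ∑ i ∈ range n, u' i ^ 2 := (sum_nonneg fun _ _ => sq_nonneg _).lt_of_ne fun c => hu (by
      have := (sum_eq_zero_iff_of_nonneg fun _ _ => sq_nonneg _).1 c.symm
      rw [val_congr he (u' := fun i => 0 * u' i) (v' := u') (fun i hi => by simpa using this i (mem_range.2 hi))
        fun _ _ => rfl]
      simpa using val_smul e 0 1 u' u')
    let u : ℕ → ℝ := fun i => if i < n then (√(∑ i ∈ range n, u' i ^ 2))⁻¹ * u' i else 0
    have u1 : ∑ i ∈ range n, u i ^ 2 = 1 := by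
      rw [sum_congr rfl fun i hi => by rw [show u i = _ from if_pos (mem_range.1 hi), mul_pow, inv_pow, Real.sq_sqrt p.le],
        ← mul_sum, inv_mul_cancel₀ p.ne']
    have u2 : ∑ i ∈ range (n * n), u i ^ 2 = 1 := by
      rw [← u1, ← sum_subset nn fun i _ hi => by simp [u, show ¬i < n by simpa using hi]]
    have vu : ∀ Q : Bf, (∀ t ∈ Q, t.2.1 < n ∧ t.2.2 < n) → Q.val u u = (∑ i ∈ range n, u' i ^ 2)⁻¹ * Q.val u' u' :=
      fun Q hQ => by
        rw [val_congr hQ (fun i hi => if_pos hi) fun i hi => if_pos hi, val_smul, ← mul_inv, Real.mul_self_sqrt p.le]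
    have z1 := sq2 u u
    rw [u1, one_mul] at z1
    refine ⟨u, u, fun l => u (l / n) * u (l % n), u2, u2, z1, lt_of_lt_of_le ?_ (le_abs_self _)⟩
    rw [third]
    have q : ∀ r : Fin G.length, ∑ l ∈ range (n * n), (co G[r.1] (l / n) (l % n) : ℝ) * (u (l / n) * u (l % n)) = 0 :=
      fun r => by rw [val_co _ (hG _ (List.getElem_mem r.2)), vu _ (hG _ (List.getElem_mem r.2)),
        h _ (List.getElem_mem r.2), mul_zero]
    simp only [q, mul_zero, sum_const_zero, sub_zero]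
    rw [sum_congr rfl fun k _ => show _ = C * (u (k / n) * u (k % n)) ^ 2 + (co e (k / n) (k % n) * (u (k / n) * u (k % n))) *
      ∑ l ∈ range (n * n), (co e (l / n) (l % n) : ℝ) * (u (l / n) * u (l % n)) by ring, sum_add_distrib, ← mul_sum, z1,
      ← sum_mul, val_co e he]
    have : e.val u u ≠ 0 := by rw [vu e he]; positivity
    linarith [mul_self_pos.2 this]
  · rintro ⟨x, y, z, h1, h2, h3, h4⟩
    have a1 := (sum_le_sum_of_subset_of_nonneg nn fun i _ _ => sq_nonneg (x i)).trans_eq h1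
    have a2 := (sum_le_sum_of_subset_of_nonneg nn fun i _ _ => sq_nonneg (y i)).trans_eq h2
    rw [third] at h4
    have b := lin (fun (r : Fin G.length) l => (co G[r.1] (l / n) (l % n) : ℝ)) (fun l => (co e (l / n) (l % n) : ℝ)) (n * n)
      (fun l => x (l / n) * y (l % n)) z hC
      (by rw [sq2]; exact mul_le_one₀ a1 (sum_nonneg fun _ _ => sq_nonneg _) a2) h3 h4
    simp only [fun r : Fin G.length => val_co _ (hG _ (List.getElem_mem r.2)) x y, val_co e he] at b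
    refine ⟨x, y, fun Q hQ => lt_of_le_of_lt ?_ b⟩
    obtain ⟨r, hr, rfl⟩ := List.getElem_of_mem hQ
    exact single_le_sum (f := fun r : Fin G.length => Bf.val G[r.1] x y ^ 2) (fun _ _ => sq_nonneg _) (mem_univ ⟨r, hr⟩)

end Pool.Agent.H.MP_50cd9e_lc
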