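import Pool.Agent.H.MP_50cd9e_lc.A

namespace Pool.Agent.H.MP_50cd9e_lc

open Pool.Agent.Lib.CX Pool.Agent.Lib.ER Finset

def ll (a : List Unit × List Bf) : ℕ := 3 * a.1.length + (4 * (a.2.map fun Q => Q.l1 * Q.l1).sum + 4).size + 5

def lam (a : List Unit × List Bf) : ℕ := 64 * (a.1.length + 1) * ((a.2.map fun Q => (1 + 2 * Q.l1) * (1 + 2 * Q.l1)).sum + 1)

def g0 (n L : ℕ) (F : List Bf) : List Bf :=
  F ++ ((List.range L).map fun k => [(1, n + 2 + (k + 1), n), (-1, n + 2 + k, n + 2 + k)]) ++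
    ((List.range (n + 3 + L)).map fun i => [(1, i, n), (-1, n, i)]) ++
    [(-1, n, n) :: (List.range n).map fun i => (1, i, i), [(4, n + 2, n), (-1, n, n)],
      [(1, n + 2 + L, n + 2 + L), (1, n + 1, n + 1), (-1, n, n)]]

def sc (c : ℤ) (Q : Bf) : Bf := Q.map fun t => (c * t.1, t.2)

theorem val_sc (c Q u v) : (sc c Q).val u v = c * Q.val u v := by
  simp only [sc, Bf.val, List.map_map, ← List.sum_map_mul_left]
  exact congrArg List.sum (List.map_congr_left fun t _ => by simp [mul_assoc])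

theorem g0_lt {n L F} (hF : ∀ Q ∈ F, ∀ t ∈ Q, t.2.1 < n ∧ t.2.2 < n) :
    ∀ Q ∈ g0 n L F, ∀ t ∈ Q, t.2.1 < n + 3 + L ∧ t.2.2 < n + 3 + L := by
  simp only [g0, List.forall_mem_append, List.forall_mem_map, List.forall_mem_cons,
    List.not_mem_nil, false_imp_iff, implies_true, and_true, List.mem_range]
  refine ⟨⟨⟨fun Q hQ t ht => ?_, fun k hk => by omega⟩, fun i hi => by omega⟩, ⟨by omega, fun i hi => by omega⟩,
    by omega, by omega⟩
  have := hF Q hQ t ht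
  omega

theorem g0_all {n L F} (x y : ℕ → ℝ) (P : ℝ → Prop) : (∀ Q ∈ g0 n L F, P (Q.val x y)) ↔ (∀ Q ∈ F, P (Q.val x y)) ∧
    (∀ k < L, P (x (n + 2 + (k + 1)) * y n - x (n + 2 + k) * y (n + 2 + k))) ∧
    (∀ i < n + 3 + L, P (x i * y n - x n * y i)) ∧ P (∑ i ∈ range n, x i * y i - x n * y n) ∧
    P (4 * (x (n + 2) * y n) - x n * y n) ∧
    P (x (n + 2 + L) * y (n + 2 + L) + x (n + 1) * y (n + 1) - x n * y n) := by
  have ls : ∀ (f : ℕ → ℝ), ((List.range n).map f).sum = ∑ i ∈ range n, f i := fun f => rfl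
  simp only [g0, List.forall_mem_append, List.forall_mem_map, List.forall_mem_cons,
    List.not_mem_nil, false_imp_iff, implies_true, and_true, List.mem_range, Bf.val, List.map_cons, List.sum_cons,
    List.map_nil, List.sum_nil, List.map_map, Function.comp_def, Int.cast_one, Int.cast_neg, one_mul, add_zero,
    Int.cast_ofNat, ls, neg_mul, ← sub_eq_add_neg, and_assoc, neg_add_eq_sub, add_sub_assoc]

theorem yes {n L F} (hF : ∀ Q ∈ F, ∀ t ∈ Q, t.2.1 < n ∧ t.2.2 < n)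
    (h : ∃ u : ℕ → ℝ, (∃ i < n, u i ≠ 0) ∧ ∀ Q ∈ F, Bf.val Q u u = 0) :
    ∃ u : ℕ → ℝ, u (n + 2 + L) * u n ≠ 0 ∧ ∀ Q ∈ g0 n L F, Bf.val Q u u = 0 := by
  obtain ⟨u', ⟨i, hi, hu⟩, h⟩ := h
  have p : 0 < ∑ i ∈ range n, u' i ^ 2 := sum_pos' (fun _ _ => sq_nonneg _) ⟨i, mem_range.2 hi, by positivity⟩
  let u : ℕ → ℝ := fun i => if i < n then (√(∑ i ∈ range n, u' i ^ 2))⁻¹ * u' i else if i = n then 1 else
    if i = n + 1 then √(1 - ((4 ^ 2 ^ L)⁻¹) ^ 2) else (4 ^ 2 ^ (i - (n + 2)))⁻¹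
  have e2 : u n = 1 := by simp [u]
  have e1 : u (n + 1) = √(1 - ((4 ^ 2 ^ L)⁻¹) ^ 2) := by simp [u]
  have e3 : ∀ k, u (n + 2 + k) = (4 ^ 2 ^ k)⁻¹ := fun k => by
    simp [u, show n + 2 + k ≠ n + 1 by omega, show n + 2 + k ≠ n by omega, show ¬n + 2 + k < n by omega]
  refine ⟨u, by rw [e2, e3]; positivity, (g0_all u u (· = 0)).2 ⟨fun Q hQ => ?_, fun k _ => ?_, fun i _ => by ring, ?_, ?_, ?_⟩⟩
  · rw [val_congr (hF Q hQ) (fun i hi => if_pos hi) fun i hi => if_pos hi, val_smul, h Q hQ, mul_zero]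
  · rw [e3, e3, e2, pow_succ 2 k, pow_mul]; ring
  · rw [sum_congr rfl fun i hi => by rw [← sq, show u i = _ from if_pos (mem_range.1 hi), mul_pow, inv_pow, Real.sq_sqrt p.le],
      ← mul_sum, inv_mul_cancel₀ p.ne', e2]
    simp
  · have := e3 0
    rw [add_zero] at this
    rw [this, e2]; norm_num
  · rw [e3, e2, e1, Real.mul_self_sqrt (sub_nonneg.2 (pow_le_one₀ (by positivity)
      (inv_le_one_of_one_le₀ (one_le_pow₀ (by norm_num)))))]
    ring

theorem no (N : List Unit) (F : List Bf) (hF : ∀ Q ∈ F, ∀ t ∈ Q, t.2.1 < N.length ∧ t.2.2 < N.length) {x y : ℕ → ℝ}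
    (h : ∀ Q ∈ g0 N.length (ll (N, F)) F, ((lam (N, F) : ℝ) * Q.val x y) ^ 2 <
      4 * (x (N.length + 2 + ll (N, F)) * y N.length) ^ 2) :
    ∃ u : ℕ → ℝ, (∃ i < N.length, u i ≠ 0) ∧ ∀ Q ∈ F, Bf.val Q u u = 0 := by
  by_contra hno
  have hs := sep hF hno (M := (4 * (F.map fun Q => Q.l1 * Q.l1).sum + 4).size)
    ((Nat.lt_size_self _).le.trans (Nat.pow_le_pow_right (by omega) (by omega)))
  have hl : (lam (N, F) : ℝ) = 64 * (N.length + 1) * (((F.map fun Q => (1 + 2 * Q.l1) * (1 + 2 * Q.l1)).sum : ℕ) + 1) := by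
    simp only [lam]; push_cast; ring
  have l2 : (2 : ℝ) ≤ lam (N, F) := by
    have : 64 * 1 * 1 ≤ lam (N, F) := by unfold lam; gcongr <;> omega
    exact_mod_cast (by omega : 2 ≤ lam (N, F))
  change ∀ u : ℕ → ℝ, _ ≤ 2 * _ * (2 ^ 2 ^ ll (N, F)) ^ 2 * _ at hs
  generalize (lam (N, F) : ℝ) = l at *
  generalize ll (N, F) = L at *
  generalize N.length = n at *
  have a := ((g0_all x y fun r => (l * r) ^ 2 < 4 * (x (n + 2 + L) * y n) ^ 2).1 h).2.2.1 (n + 2 + L) (by omega)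
  have y0 : y n ≠ 0 := fun e => by rw [e] at a; nlinarith [sq_nonneg (l * (x (n + 2 + L) * 0 - x n * y (n + 2 + L)))]
  have x0 : x n ≠ 0 := fun e => by
    rw [e, zero_mul, sub_zero, mul_pow] at a
    nlinarith [sq_nonneg (x (n + 2 + L) * y n), mul_le_mul l2 l2 (by norm_num) (by linarith)]
  obtain ⟨h1, h4, h6, h2, h3, h5⟩ := (g0_all (n := n) (L := L) (F := F) (fun i => (x n)⁻¹ * x i) (fun i => (y n)⁻¹ * y i)
    fun r => |r| ≤ 2 * |(x n)⁻¹ * x (n + 2 + L)| / l).1 fun Q hQ => by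
      have := h Q hQ
      rw [show (4 : ℝ) = 2 ^ 2 by norm_num, ← mul_pow, sq_lt_sq, abs_mul, abs_mul, abs_mul, abs_of_pos (by linarith : 0 < l),
        abs_two] at this
      rw [val_smul, le_div_iff₀ (by linarith), abs_mul, abs_mul, abs_mul, abs_inv, abs_inv]
      have := abs_pos.2 x0
      have := abs_pos.2 y0
      field_simp
      linarith
  simp only [inv_mul_cancel₀ x0, inv_mul_cancel₀ y0, mul_one, one_mul] at h2 h3 h4 h5 h6
  exact analytic hF hl (div_mul_cancel₀ _ (by linarith)) h1 h2 h3 h4 h5 h6 (hs _)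

def dm (a : List Unit × List Bf) : ℕ := a.1.length + 3 + ll a

def rows (a : List Unit × List Bf) : List Bf := (g0 a.1.length (ll a) a.2).map (sc (lam a))

def ee (a : List Unit × List Bf) : Bf := [(1, a.1.length + 2 + ll a, a.1.length)]

def nq (n : ℕ) (Q : Bf) : ℕ :=
  ((List.range (n * n)).map fun l => (co Q (l / n) (l % n)).natAbs * (co Q (l / n) (l % n)).natAbs).sum

def cc (a : List Unit × List Bf) : ℕ := 1 + ((rows a).map (nq (dm a))).sum + nq (dm a) (ee a)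

def tf (a : List Unit × List Bf) (i j k : ℕ) : ℤ :=
  if i < dm a ∧ j < dm a then (if i * dm a + j = k then (cc a : ℤ) else 0) -
    ((rows a).map fun Q => co Q i j * co Q (k / dm a) (k % dm a)).sum + co (ee a) i j * co (ee a) (k / dm a) (k % dm a)
  else 0

theorem main (N : List Unit) (F : List Bf) (hF : ∀ Q ∈ F, ∀ t ∈ Q, t.2.1 < N.length ∧ t.2.2 < N.length) :
    (∃ u : ℕ → ℝ, (∃ i < N.length, u i ≠ 0) ∧ ∀ Q ∈ F, Bf.val Q u u = 0) ↔
    ∃ x y z : ℕ → ℝ, ∑ i ∈ range (dm (N, F) * dm (N, F)), x i ^ 2 = 1 ∧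
    ∑ i ∈ range (dm (N, F) * dm (N, F)), y i ^ 2 = 1 ∧ ∑ i ∈ range (dm (N, F) * dm (N, F)), z i ^ 2 = 1 ∧
    (cc (N, F) : ℝ) < |∑ i ∈ range (dm (N, F) * dm (N, F)), ∑ j ∈ range (dm (N, F) * dm (N, F)),
      ∑ k ∈ range (dm (N, F) * dm (N, F)), (tf (N, F) i j k : ℝ) * x i * y j * z k| := by
  have q : ∀ n Q, (nq n Q : ℝ) = ∑ l ∈ range (n * n), (co Q (l / n) (l % n) : ℝ) * co Q (l / n) (l % n) := fun n Q => by
    simp [nq, Function.comp_def]
    rfl
  obtain ⟨c1, c2⟩ := core (n := dm (N, F)) (rows (N, F)) (ee (N, F)) (cc (N, F)) (fun i j k => tf (N, F) i j k)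
    (List.forall_mem_map.2 fun Q hQ => List.forall_mem_map.2 (g0_lt hF Q hQ)) (by simp [ee, dm]; omega) (by
      rw [Fin.sum_univ_fun_getElem (rows (N, F)) fun Q => ∑ l ∈ range (dm (N, F) * dm (N, F)),
        (co Q (l / dm (N, F)) (l % dm (N, F)) : ℝ) * co Q (l / dm (N, F)) (l % dm (N, F))]
      simp [cc, Function.comp_def, q]) fun i j k => by
      rw [Fin.sum_univ_fun_getElem (rows (N, F)) fun Q => (co Q i j : ℝ) * co Q (k / dm (N, F)) (k % dm (N, F))]
      simp [tf, Function.comp_def]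
  refine ⟨fun h => c1 ?_, fun h => ?_⟩
  · obtain ⟨u, h1, h2⟩ := yes (L := ll (N, F)) hF h
    exact ⟨u, by simpa [ee, Bf.val] using h1, List.forall_mem_map.2 fun Q hQ => by rw [val_sc, h2 Q hQ, mul_zero]⟩
  · obtain ⟨x, y, h⟩ := c2 h
    refine no N F hF (x := x) (y := y) fun Q hQ => ?_
    have := h _ (List.mem_map_of_mem hQ)
    rw [val_sc] at this
    simpa [ee, Bf.val] using this

section
attribute [local irreducible] Bf.l1 co ll dm lam rows ee cc tf g0 sc nq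

variable {α : Type} [Enc α] {f : α → List Unit × List Bf}

@[fun_prop] theorem pt_l1 {f : α → Bf} (h : PT f) : PT fun a => (f a).l1 := by unfold Bf.l1; fun_prop
@[fun_prop] theorem pt_co {f : α → Bf} {i j : α → ℕ} (h : PT f) (hi : PT i) (hj : PT j) :
    PT fun a => co (f a) (i a) (j a) := by unfold co; fun_prop
@[fun_prop] theorem pt_ll (h : PT f) : PT fun a => ll (f a) := by unfold ll; fun_prop
@[fun_prop] theorem pb_ll (h : PT f) : PB fun a => ll (f a) := by unfold ll; fun_prop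
@[fun_prop] theorem pt_dm (h : PT f) : PT fun a => dm (f a) := by unfold dm; fun_prop
@[fun_prop] theorem pb_dm (h : PT f) : PB fun a => dm (f a) := by unfold dm; fun_prop
@[fun_prop] theorem pt_lam (h : PT f) : PT fun a => lam (f a) := by unfold lam; fun_prop
@[fun_prop] theorem pt_rows (h : PT f) : PT fun a => rows (f a) := by unfold rows g0 sc; fun_prop
@[fun_prop] theorem pt_ee (h : PT f) : PT fun a => ee (f a) := by unfold ee; fun_prop
@[fun_prop] theorem pt_cc (h : PT f) : PT fun a => cc (f a) := by unfold cc nq; fun_prop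
@[fun_prop] theorem pt_tf {i j k : α → ℕ} (h : PT f) (hi : PT i)
    (hj : PT j) (hk : PT k) : PT fun a => tf (f a) (i a) (j a) (k a) := by unfold tf; fun_prop

end

end Pool.Agent.H.MP_50cd9e_lc
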